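import Pool.Agent.Helper79K.DS.Forced
import Pool.Agent.Helper79K.DS.Zfc
import Pool.Agent.Helper79K.DS.Triv

/-!
# Consistently there is a Delta-set of reals whose square is not a Delta-set

The first part of the theorem is about a forcing notion `P` and a set `K` of the ground model: every
condition forces the principle `Prin K`, which says that there are pairwise different subsets
`x γ` of `ℕ`, for `γ` in `K`, such that

* every function `g` from `K` to `ℕ` has a point-finite open expansion: there are sets `U n` of
  finite binary sequences such that for every `γ` some member of `U (g γ)` is an initial segment of
  `x γ`, while for all large `n` no member of `U n` is;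
* some function `h` from `K × K` to `ℕ` has no such expansion by sets `V n` of pairs of finite
  binary sequences.

The second part is a theorem of ZFC: if some `K` satisfies the principle then there is a set `X` of
reals which is a Delta-set while the subset `X × X` of the plane is not a Delta-set. Applied in a
generic extension by `P` it shows that the question has a positive answer: the existence of such an
`X` is consistent with ZFC.

The conditions are finite sets of pieces of information of four kinds: a digit of a generic real
`x γ`; a value of the generic function `h`; a basic open set put into the set `U n` belonging to a
name of a function `g` on `K`; and a promise that the point `x γ` is in none of the sets `U n` with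
`n ≥ k`, which must be justified by a part of the condition which decides a value of `g` at `γ`
below `k`. This forcing satisfies the countable chain condition. To see that `h` has no expansion,
suppose that names `V n` are given, and pick uncountably many disjoint pairs `(α, β)` such that the
conditions which justify the relevant promises about `x α` and `x β` never decide `h α β`. Pick
conditions deciding a bound `k` for the indices of the sets `V n` which contain `(x α, x β)`, and
make them similar. The part of one of them which is relevant for its pair `(α, β)`, together with a
second one, decides the same bound, does not decide `h α β` and can thus be extended by putting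
`h α β = k`, a contradiction. The index set has to have at least `ℵ₂` elements for the choice of
the pairs.
-/

set_option autoImplicit false

namespace Pool.Agent.Results.MP_d5ec8b_lc.SquareNotDelta

open Cardinal Pool.Agent.Helper79K.DS

/-- Some forcing notion forces the principle `Prin K` for some `K`; and the principle implies that
there is a `Δ`-set of reals whose square is not a `Δ`-set. -/
theorem result :
    (∃ (P : Type) (_ : Preorder P) (_ : Nonempty P) (K : Type), ∀ p : P, p ∈ PrinN P K) ∧
    ∀ K : Type, Prin K → ∃ X : Set ℝ, IsDelta X ∧ ¬ IsDelta (X ×ˢ X : Set (ℝ × ℝ)) := by
  refine ⟨?_, fun K h => of_prin h⟩
  have hL : ℵ₁ < #(Set ℝ) := by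
    rw [Cardinal.mk_set, Cardinal.mk_real]
    exact Cardinal.aleph_one_le_continuum.trans_lt (Cardinal.cantor _)
  have hK : ℵ₀ ≤ #(Set ℝ × Set ℝ) := by
    rw [Cardinal.mk_prod, Cardinal.lift_id]
    exact ((Cardinal.aleph0_le_aleph 1).trans hL.le).trans
      (Cardinal.le_mul_right (Cardinal.mk_ne_zero _))
  obtain ⟨N, hN⟩ := exists_surj (Set ℝ × Set ℝ) hK
  exact ⟨Pos N, inferInstance, ⟨⟨∅, good_empty N⟩⟩, Set ℝ × Set ℝ, fun p => prin_forced hL hN p⟩

end Pool.Agent.Results.MP_d5ec8b_lc.SquareNotDelta
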